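import Pool.Agent.Y381.UC.Defs

/-! # UC-LD: mean of the logarithm of the denominator -/

set_option autoImplicit false

open Finset

namespace Pool.Agent.Y675.UC

theorem log_step {z : ℝ} (hz : -(1 / 2) ≤ z) : z - 2 * z ^ 2 ≤ Real.log (1 + z) := by
  have h0 : 0 < 1 + z := by linarith
  have h1 := Real.one_sub_inv_le_log_of_pos h0
  refine le_trans ?_ h1
  have h2 : 1 - (1 + z)⁻¹ = z / (1 + z) := by
    field_simp
    ring
  rw [h2, le_div_iff₀ h0]
  nlinarith [mul_nonneg (sq_nonneg z) (by linarith : 0 ≤ 1 + 2 * z)]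

theorem norm_sq_eq (W u : ℂ) (l : ℝ) (hu : ‖u‖ = 1) :
    ‖W + l * u‖ ^ 2 = ‖W‖ ^ 2 + 2 * l * (W.re * u.re + W.im * u.im) + l ^ 2 := by
  have h1 : u.re ^ 2 + u.im ^ 2 = 1 := by
    have h := Complex.sq_norm u
    rw [hu, Complex.normSq_apply] at h
    nlinarith
  rw [Complex.sq_norm, Complex.sq_norm, Complex.normSq_apply, Complex.normSq_apply]
  simp only [Complex.add_re, Complex.add_im, Complex.re_ofReal_mul, Complex.im_ofReal_mul]
  nlinarith

theorem inner_le (W u : ℂ) (hu : ‖u‖ = 1) : |W.re * u.re + W.im * u.im| ≤ ‖W‖ := by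
  have h1 : u.re ^ 2 + u.im ^ 2 = 1 := by
    have h := Complex.sq_norm u
    rw [hu, Complex.normSq_apply] at h
    nlinarith
  have h2 : ‖W‖ ^ 2 = W.re ^ 2 + W.im ^ 2 := by
    rw [Complex.sq_norm, Complex.normSq_apply]
    ring
  refine abs_le_of_sq_le_sq ?_ (norm_nonneg _)
  have h3 : ‖W‖ ^ 2 = (W.re ^ 2 + W.im ^ 2) * (u.re ^ 2 + u.im ^ 2) := by rw [h1, h2, mul_one]
  rw [h3]
  nlinarith [sq_nonneg (W.re * u.im - W.im * u.re)]

theorem t_LD : Pool.Agent.Y381.UC.S_LD := by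
  intro ι _ p T l W u T' hp hp1 hT hl1 hl2 hu hsum hT'
  have hl0 : 0 ≤ l := (Real.sqrt_nonneg 2).trans hl1
  have hTpos : 0 < T := by linarith
  obtain ⟨w, hw⟩ : ∃ w : ℝ, w = ‖W‖ := ⟨_, rfl⟩
  have hw0 : 0 ≤ w := by rw [hw]; exact norm_nonneg _
  obtain ⟨D, hD⟩ : ∃ D : ℝ, D = w ^ 2 + 1000 * T := ⟨_, rfl⟩
  have hDbig : 100000000 ≤ D := by
    rw [hD]
    nlinarith [sq_nonneg w]
  have hDpos : 0 < D := by linarith
  obtain ⟨R, hR⟩ : ∃ R : ι → ℝ, ∀ i, R i = W.re * (u i).re + W.im * (u i).im := ⟨_, fun _ => rfl⟩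
  obtain ⟨Δ, hΔ⟩ : ∃ Δ : ι → ℝ, ∀ i, Δ i = 2 * l * R i + l ^ 2 + 1000 * (T' i - T) :=
    ⟨_, fun _ => rfl⟩
  have hDi : ∀ i, ‖W + l * u i‖ ^ 2 + 1000 * T' i = D + Δ i := by
    intro i
    rw [norm_sq_eq W (u i) l (hu i), hΔ, hR, hD, hw]
    ring
  have hRle : ∀ i, |R i| ≤ w := by
    intro i
    rw [hR, hw]
    exact inner_le W (u i) (hu i)
  have hΔle : ∀ i, |Δ i| ≤ 4 * w + 2004 := by
    intro i
    have h1 := abs_le.1 (hRle i)
    have h2 := abs_le.1 (hT' i)
    have h3 : |2 * l * R i| ≤ 4 * w := by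
      rw [abs_mul, abs_of_nonneg (by positivity : 0 ≤ 2 * l)]
      have := hRle i
      nlinarith [abs_nonneg (R i)]
    have h3' := abs_le.1 h3
    have h4 : l ^ 2 ≤ 4 := by nlinarith
    have h5 : 0 ≤ l ^ 2 := sq_nonneg l
    rw [hΔ, abs_le]
    constructor <;> nlinarith [h3'.1, h3'.2, h2.1, h2.2]
  have hz : ∀ i, -(1 / 2) ≤ Δ i / D := by
    intro i
    have h1 := (abs_le.1 (hΔle i)).1
    rw [le_div_iff₀ hDpos, hD]
    nlinarith [sq_nonneg (w - 4)]
  have hsq : ∀ i, 2 * (Δ i / D) ^ 2 ≤ 100 / D := by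
    intro i
    have h1 : Δ i ^ 2 ≤ 32 * w ^ 2 + 2 * 2004 ^ 2 := by
      have h2 : Δ i ^ 2 ≤ (4 * w + 2004) ^ 2 := by
        rw [← sq_abs]
        exact pow_le_pow_left₀ (abs_nonneg _) (hΔle i) 2
      nlinarith [sq_nonneg (4 * w - 2004)]
    rw [div_pow, ← mul_div_assoc, div_le_div_iff₀ (by positivity) hDpos]
    have h3 : w ^ 2 ≤ D := by
      rw [hD]
      linarith
    have h4 : 2 * Δ i ^ 2 ≤ 100 * D := by nlinarith
    have h5 : 2 * Δ i ^ 2 * D ≤ 100 * D * D := mul_le_mul_of_nonneg_right h4 hDpos.le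
    nlinarith
  have hlog : ∀ i, -Real.log (‖W + l * u i‖ ^ 2 + 1000 * T' i) ≤
      -Real.log D - Δ i / D + 100 / D := by
    intro i
    have h1 : D + Δ i = D * (1 + Δ i / D) := by
      field_simp
    have h2 : 0 < 1 + Δ i / D := by linarith [hz i]
    rw [hDi i, h1, Real.log_mul hDpos.ne' h2.ne']
    have h3 := log_step (hz i)
    have h4 := hsq i
    linarith
  have hsumR : ∑ i, p i * R i = w ^ 2 / T := by
    have hre := congrArg Complex.re hsum
    have him := congrArg Complex.im hsum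
    rw [Complex.re_sum] at hre
    rw [Complex.im_sum] at him
    simp only [Complex.re_ofReal_mul, Complex.div_ofReal_re] at hre
    simp only [Complex.im_ofReal_mul, Complex.div_ofReal_im] at him
    have h1 : ∑ i, p i * R i = W.re * ∑ i, p i * (u i).re + W.im * ∑ i, p i * (u i).im := by
      rw [Finset.mul_sum, Finset.mul_sum, ← Finset.sum_add_distrib]
      refine Finset.sum_congr rfl fun i _ => ?_
      rw [hR]
      ring
    rw [h1, hre, him, hw, Complex.sq_norm, Complex.normSq_apply]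
    ring
  have hmean : 2 * l * (w ^ 2 / T) - 2000 ≤ ∑ i, p i * Δ i := by
    have h1 : ∑ i, p i * Δ i = 2 * l * (∑ i, p i * R i) + l ^ 2 * ∑ i, p i +
        1000 * ∑ i, p i * (T' i - T) := by
      rw [Finset.mul_sum, Finset.mul_sum, Finset.mul_sum, ← Finset.sum_add_distrib,
        ← Finset.sum_add_distrib]
      refine Finset.sum_congr rfl fun i _ => ?_
      rw [hΔ]
      ring
    have h2 : -2 ≤ ∑ i, p i * (T' i - T) := by
      have h3 : ∑ i, p i * (-2) ≤ ∑ i, p i * (T' i - T) :=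
        Finset.sum_le_sum fun i _ => mul_le_mul_of_nonneg_left (abs_le.1 (hT' i)).1 (hp i)
      rw [← Finset.sum_mul, hp1] at h3
      linarith
    rw [h1, hsumR, hp1]
    nlinarith [sq_nonneg l]
  calc ∑ i, p i * (-Real.log (‖W + l * u i‖ ^ 2 + 1000 * T' i))
      ≤ ∑ i, p i * (-Real.log D - Δ i / D + 100 / D) :=
        Finset.sum_le_sum fun i _ => mul_le_mul_of_nonneg_left (hlog i) (hp i)
    _ = (-Real.log D + 100 / D) * ∑ i, p i - (∑ i, p i * Δ i) / D := by
        rw [Finset.mul_sum, Finset.sum_div, ← Finset.sum_sub_distrib]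
        refine Finset.sum_congr rfl fun i _ => ?_
        ring
    _ ≤ (-Real.log D + 100 / D) - (2 * l * (w ^ 2 / T) - 2000) / D := by
        rw [hp1, mul_one]
        have := div_le_div_of_nonneg_right hmean hDpos.le
        linarith
    _ ≤ -Real.log D - 2 * l / T + 6100 / D := by
        have h1 : w ^ 2 = D - 1000 * T := by rw [hD]; ring
        have h2 : (2 * l * (w ^ 2 / T) - 2000) / D = 2 * l / T - (2000 * l + 2000) / D := by
          rw [h1]
          field_simp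
          ring
        rw [h2]
        have h3 : (2000 * l + 2000) / D ≤ 6000 / D :=
          div_le_div_of_nonneg_right (by linarith) hDpos.le
        have h4 : (6100 : ℝ) / D = 6000 / D + 100 / D := by ring
        rw [h4]
        linarith
    _ = _ := by rw [hD, hw]

end Pool.Agent.Y675.UC
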